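import Mathlib
import Pool.Agent.W979.HS.Count
import Pool.Agent.W44.ExpTwoAll
import Pool.Agent.Results.MP_5164b6_nt.QuadraticDigitRelations

set_option autoImplicit false

/-!
# Multi-stack machines which rarely use all stacks but one

The Hartmanis-Stearns question asks whether a multi-stack (multitape) machine without input can
write the digits of an algebraic irrational number in real time. We show: a multi-stack machine
which writes the digits of an algebraic irrational number (in real time or not) must, for every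
choice of one of its stacks, pop the other stacks at least `c (log N)^2 / (log log N)^3` times
before `N` digits are written, and `c (log N)^3 / (log log N)^5` times for a quadratic irrational
number. More generally, a machine with one stack and an external memory of any kind (any number of
further stacks, tapes, counters, queues, or an oracle) needs so many accesses to this memory.
-/

namespace Pool.Agent.Results.MP_5bdb63_lc.OneFreeStack

open Finset Filter Pool.Agent.W979.HS

theorem general (x : ℝ) (halg : IsAlgebraic ℚ x) (hirr : Irrational x) (b : ℕ) (hb : 2 ≤ b)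
    (P : ℕ) (_ : 1 ≤ P) : ∃ c : ℝ, 0 < c ∧ ∃ N0 : ℕ, ∀ N : ℕ, N0 ≤ N →
      c * ((Real.log N) ^ 2 / (Real.log (Real.log N)) ^ 3) ≤ (((Icc 1 N).filter (fun k : ℕ =>
        ∑ j ∈ range (P + 1), (if j = 0 then (1 : ℤ) else if j = P then -1 else 0) *
          digit b x (k + j) ≠ 0)).card : ℝ) := by
  obtain ⟨c, hc, N0, h⟩ := Pool.Agent.W44.relations_nontrivial x halg hirr b hb P
    (fun j => if j = 0 then (1 : ℤ) else if j = P then -1 else 0) ⟨0, Nat.zero_le _, by simp⟩ 0
  refine ⟨c, hc, N0, fun N hN => ?_⟩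
  rw [← mul_div_assoc]
  exact h N hN

theorem quadratic (x : ℝ) (hirr : Irrational x) (A B C : ℤ) (hA : A ≠ 0)
    (hx : (A : ℝ) * x ^ 2 + B * x + C = 0) (b : ℕ) (hb : 2 ≤ b)
    (P : ℕ) (hP : 1 ≤ P) : ∃ c : ℝ, 0 < c ∧ ∃ N0 : ℕ, ∀ N : ℕ, N0 ≤ N →
      c * ((Real.log N) ^ 3 / (Real.log (Real.log N)) ^ 5) ≤ (((Icc 1 N).filter (fun k : ℕ =>
        ∑ j ∈ range (P + 1), (if j = 0 then (1 : ℤ) else if j = P then -1 else 0) *
          digit b x (k + j) ≠ 0)).card : ℝ) := by
  obtain ⟨c, hc, N0, h⟩ := Pool.Agent.Results.MP_5164b6_nt.QuadraticDigitRelations.result x hirr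
    A B C hA hx b hb P (fun j => if j = 0 then (1 : ℤ) else if j = P then -1 else 0) 0 (by
      rw [sum_range_succ, sum_eq_single_of_mem 0 (mem_range.2 hP)]
      · have h0 : P ≠ 0 := by omega
        have h1 : (2 : ℤ) ≤ (b : ℤ) ^ P := by
          calc (2 : ℤ) ≤ (b : ℤ) := by exact_mod_cast hb
            _ ≤ (b : ℤ) ^ P := by
              exact_mod_cast Nat.le_self_pow h0 b
        simp only [if_true, if_neg h0, pow_zero, mul_one]
        intro h2
        omega
      · intro j hj hj0
        rw [mem_range] at hj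
        rw [if_neg hj0, if_neg (by omega), zero_mul])
  refine ⟨c, hc, N0, fun N hN => ?_⟩
  rw [← mul_div_assoc]
  exact h N hN

open Classical in
/-- Parts 1 and 2: let a multi-stack machine write (after `s` arbitrary symbols) base `b` digits of
`x`, and let `k₀` be one of its stacks. The number of steps in which some nonempty stack other than
`k₀` is popped, before `N` symbols are written, is at least `c (log N)^2 / (log log N)^3` if `x` is
algebraic irrational and at least `c (log N)^3 / (log log N)^5` if `x` is a quadratic irrational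
number. Parts 3 and 4: the same for the number of interventions in the run of a machine with one
stack whose state may be changed arbitrarily from outside at certain times, where `c` does not
depend on the interventions. No bound for the running time is assumed. -/
theorem result :
    (∀ (x : ℝ), IsAlgebraic ℚ x → Irrational x → ∀ b : ℕ, 2 ≤ b →
      ∀ (M : StackMachine) (k₀ : M.ι) (s : ℕ),
      (∀ T i d, (M.output T)[s + i]? = some d → (d : ℤ) = digit b x (i + 1)) →
      ∃ c : ℝ, 0 < c ∧ ∃ N0 : ℕ, ∀ N T : ℕ, N0 ≤ N → N ≤ (M.output T).length →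
        c * ((Real.log N) ^ 2 / (Real.log (Real.log N)) ^ 3) ≤
          (((range T).filter (M.PopOutside k₀)).card : ℝ)) ∧
    (∀ (x : ℝ) (A B C : ℤ), A ≠ 0 → (A : ℝ) * x ^ 2 + B * x + C = 0 → Irrational x →
      ∀ b : ℕ, 2 ≤ b → ∀ (M : StackMachine) (k₀ : M.ι) (s : ℕ),
      (∀ T i d, (M.output T)[s + i]? = some d → (d : ℤ) = digit b x (i + 1)) →
      ∃ c : ℝ, 0 < c ∧ ∃ N0 : ℕ, ∀ N T : ℕ, N0 ≤ N → N ≤ (M.output T).length →
        c * ((Real.log N) ^ 3 / (Real.log (Real.log N)) ^ 5) ≤
          (((range T).filter (M.PopOutside k₀)).card : ℝ)) ∧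
    (∀ (x : ℝ), IsAlgebraic ℚ x → Irrational x → ∀ b : ℕ, 2 ≤ b →
      ∀ (Q Γ : Type) [Fintype Q] [Fintype Γ] (M : Prog Q Γ) (s : ℕ),
      ∃ c : ℝ, 0 < c ∧ ∃ N0 : ℕ, ∀ (q : ℕ → Q) (S : ℕ → List Γ) (ev : ℕ → Prop),
      Traj M q S ev →
      (∀ T i d, (written M q S T)[s + i]? = some d → (d : ℤ) = digit b x (i + 1)) →
      ∀ N T : ℕ, N0 ≤ N → N ≤ (written M q S T).length →
        c * ((Real.log N) ^ 2 / (Real.log (Real.log N)) ^ 3) ≤
          (((range T).filter ev).card : ℝ)) ∧
    (∀ (x : ℝ) (A B C : ℤ), A ≠ 0 → (A : ℝ) * x ^ 2 + B * x + C = 0 → Irrational x →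
      ∀ b : ℕ, 2 ≤ b → ∀ (Q Γ : Type) [Fintype Q] [Fintype Γ] (M : Prog Q Γ) (s : ℕ),
      ∃ c : ℝ, 0 < c ∧ ∃ N0 : ℕ, ∀ (q : ℕ → Q) (S : ℕ → List Γ) (ev : ℕ → Prop),
      Traj M q S ev →
      (∀ T i d, (written M q S T)[s + i]? = some d → (d : ℤ) = digit b x (i + 1)) →
      ∀ N T : ℕ, N0 ≤ N → N ≤ (written M q S T).length →
        c * ((Real.log N) ^ 3 / (Real.log (Real.log N)) ^ 5) ≤
          (((range T).filter ev).card : ℝ)) := by
  refine ⟨?_, ?_, ?_, ?_⟩
  · intro x halg hirr b hb M k₀ s hw
    exact machine_access b x _ (tend 2 3 le_rfl) (general x halg hirr b hb) M k₀ s hw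
  · intro x A B C hA hx hirr b hb M k₀ s hw
    exact machine_access b x _ (tend 3 5 (by norm_num))
      (quadratic x hirr A B C hA hx b hb) M k₀ s hw
  · intro x halg hirr b hb Q Γ _ _ M s
    exact access b x _ (tend 2 3 le_rfl) (general x halg hirr b hb) M s
  · intro x A B C hA hx hirr b hb Q Γ _ _ M s
    exact access b x _ (tend 3 5 (by norm_num)) (quadratic x hirr A B C hA hx b hb) M s

end Pool.Agent.Results.MP_5bdb63_lc.OneFreeStack
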